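import Mathlib
import Pool.Agent.Lib.helper7.VdB

namespace Pool.Agent.Results.MP_19f369_gt.NotRightBounded

open Set Filter Topology TopologicalSpace

/-- Covering dimension `0`: `X` is nonempty and every finite open cover has a finite open
refinement whose members are pairwise disjoint. -/
def DimZero (X : Type) [TopologicalSpace X] : Prop :=
  Nonempty X ∧ ∀ (n : ℕ) (U : Fin n → Set X), (∀ i, IsOpen (U i)) → ⋃ i, U i = univ →
    ∃ (k : ℕ) (V : Fin k → Set X), (∀ j, IsOpen (V j)) ∧ ⋃ j, V j = univ ∧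
      (∀ j, ∃ i, V j ⊆ U i) ∧ ∀ i j, i ≠ j → Disjoint (V i) (V j)

open Pool.Agent.Lib.Helper7Vd in
theorem result : ∃ (X : Type) (_ : TopologicalSpace X), T2Space X ∧ CompactSpace X ∧ DimZero X ∧
    IsTopologicalBasis {s : Set X | IsClopen s} ∧ (∀ x y : X, ∃ h : X ≃ₜ X, h x = y) ∧
    ∃ U ∈ 𝓝 (id : X → X), ∀ F : Set (X → X), F.Finite → (∀ f ∈ F, Continuous f) →
      ∃ g : X → X, Continuous g ∧ ¬ ∃ u ∈ U, ∃ f ∈ F, Continuous u ∧ g = u ∘ f := by
  classical
  have : Nonempty X := ⟨plus 0⟩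
  obtain ⟨m, m0, m1⟩ := btw (show (0 : ℝ) < 1 by norm_num)
  have p0 : (plus 0).1 m = false := by simp [plus, not_le.2 m0]
  refine ⟨X, inferInstance, inferInstance, inferInstance, ⟨⟨plus 0⟩, fun n U h1 h2 => ?_⟩,
    isTopologicalBasis_isClopen, homog, {u | (u (plus 0)).1 m = false}, ?_, fun F F1 F2 => ?_⟩
  · obtain ⟨k, W, w1, w2, w3⟩ := (IsOpenCover.of_sets h1 h2).exists_finite_nonempty_disjoint_clopen_cover
    refine ⟨k, fun j => W j, fun j => (W j).isOpen, univ_subset_iff.1 w2, fun j => (w1 j).2,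
      fun i j h => ?_⟩
    have := w3 h
    rw [Function.onFun, disjoint_iff] at this
    exact disjoint_iff.2 (congrArg SetLike.coe this)
  · exact ((clo m false).isOpen.preimage
      (continuous_apply (A := fun _ : X => X) (plus 0))).mem_nhds p0
  · obtain ⟨G, c, c1, c2⟩ := push (F1.toFinset.image fun f => Function.invFun (α := X) f (plus 0))
      (1 - m) (by linarith)
    refine ⟨G, G.continuous, ?_⟩
    rintro ⟨u, u1, f, f1, -, e⟩
    have fs := coHopf (F2 f f1) (Function.Injective.of_comp (e ▸ G.injective))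
    have h1 := c2 _ (Finset.mem_image_of_mem _ (F1.mem_toFinset.2 f1))
    rw [e, Function.comp_apply, Function.invFun_eq (fs _)] at h1
    exact Bool.noConfusion (((u _).dn (by linarith) h1).symm.trans u1)

end Pool.Agent.Results.MP_19f369_gt.NotRightBounded
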